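import Mathlib

set_option autoImplicit false

namespace Pool.Agent.Helper54.FR

theorem cf_aux : ∀ N : ℕ, ∃ q k : ℕ, N ≤ q ∧ k ≤ q ∧ 1 ≤ q ∧ 4 * k * q + k * k + 1 = q * q := by
  intro N
  induction N with
  | zero => exact ⟨17, 4, by norm_num, by norm_num, by norm_num, by norm_num⟩
  | succ N ih =>
    obtain ⟨q, k, h1, h2, h3, h4⟩ := ih
    refine ⟨17 * q + 4 * k, 4 * q + k, by omega, by omega, by omega, ?_⟩
    have : (4 * (4 * q + k) * (17 * q + 4 * k) + (4 * q + k) * (4 * q + k) + 1) + q * q =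
        (17 * q + 4 * k) * (17 * q + 4 * k) + (4 * k * q + k * k + 1) := by ring
    rw [h4] at this
    exact Nat.add_right_cancel this

/-- good approximations of `√5 - 2` -/
theorem st_CF : ∀ N : ℕ, ∃ q k : ℕ, N ≤ q ∧ k ≤ q ∧ 4 * k * q + k * k + 1 = q * q ∧
    (k : ℝ) / q ≤ Real.sqrt 5 - 2 := by
  intro N
  obtain ⟨q, k, h1, h2, h3, h4⟩ := cf_aux N
  refine ⟨q, k, h1, h2, h4, ?_⟩
  have hq : (0 : ℝ) < q := by exact_mod_cast h3
  have h5 : (4 * (k : ℝ) * q + k * k + 1) = q * q := by exact_mod_cast h4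
  rw [div_le_iff₀ hq]
  have h6 : ((k : ℝ) + 2 * q) ≤ Real.sqrt 5 * q := by
    rw [← Real.sqrt_sq hq.le, ← Real.sqrt_mul (by norm_num : (0 : ℝ) ≤ 5)]
    apply Real.le_sqrt_of_sq_le
    rw [Real.sqrt_sq hq.le]
    nlinarith
  linarith

end Pool.Agent.Helper54.FR
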